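import Mathlib
import Pool.Agent.V11177.PdetCyc
import Pool.Agent.V11177.PdetDet
import Pool.Agent.V11177.PdetSum
import Pool.Agent.V11177.PdetAvg

/-!
MP_02f487, Q1 (proved).  The `Pr`-determinant of `M^D` equals
`|M_{p,r}|/|S_{p,r}| * Pr(k ∉ S_1, D ⊆ S_1 | S ∈ M_{p,r})`.

Here `[k]` is represented by `Fin (K+1) = {0,...,K}` with `k = K + 1`, the element `k` being
`Fin.last K`, and `[k-1]` by `Fin K`.
-/

namespace Pool.Agent.Results.MP_02f487_co.PdetIdentity

open Finset Matrix PdetCyc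

variable {K r : ℕ}

/-- `S_{p,r}`: tuples of subsets in which each `i` lies in exactly `p i` of the subsets -/
def SS (r : ℕ) (p : Fin (K + 1) → ℕ) : Finset (Fin r → Finset (Fin (K + 1))) :=
  univ.filter (fun S => ∀ i, (univ.filter (fun t => i ∈ S t)).card = p i)

/-- `M_{p,r}`: those tuples in which no subset is everything -/
def MM (r : ℕ) (p : Fin (K + 1) → ℕ) : Finset (Fin r → Finset (Fin (K + 1))) :=
  (SS r p).filter (fun S => ∀ t, S t ≠ univ)

/-- sample points -/
abbrev Pt (K r : ℕ) := (Fin r → Finset (Fin (K + 1))) × (Fin K → Fin r)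

open Classical in
/-- the sample space `Ω`: pairs of a tuple in `S_{p,r}` and a surjection `[k-1] → [r]` -/
noncomputable def Omega (r : ℕ) (p : Fin (K + 1) → ℕ) : Finset (Pt K r) :=
  (SS r p) ×ˢ (univ.filter (fun f : Fin K → Fin r => Function.Surjective f))

open Classical in
/-- uniform probability on `Ω` -/
noncomputable def Pr (p : Fin (K + 1) → ℕ) (E : Set (Pt K r)) : ℚ :=
  ((Omega r p).filter (fun ω => ω ∈ E)).card / (Omega r p).card

/-- the cyclic predecessor `i - 1` -/
def prev (i : Fin (K + 1)) : Fin (K + 1) :=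
  if (i : ℕ) = 0 then Fin.last K else ⟨(i : ℕ) - 1, by omega⟩

/-- the event `I^{f(a)}_{i,j}` -/
def evI (a : Fin K) (i j : Fin (K + 1)) : Set (Pt K r) := {ω | cyc i j ⊆ ω.1 (ω.2 a)}

/-- the event `J^{f(a)}_{i,j}` -/
def evJ (a : Fin K) (i j : Fin (K + 1)) : Set (Pt K r) :=
  if i = j then {ω | ω.1 (ω.2 a) = univ} else evI a i j

open Classical in
/-- the matrix of events `M^D` -/
noncomputable def MD (D : Finset (Fin K)) (i j : Fin (K + 1)) : Set (Pt K r) :=
  Fin.lastCases (motive := fun _ => Set (Pt K r)) Set.univ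
    (fun a => if a ∈ D then evJ a (prev a.castSucc) j else evI a a.castSucc j) i

/-- the `Pr`-determinant -/
noncomputable def Pdet (p : Fin (K + 1) → ℕ) (E : Fin (K + 1) → Fin (K + 1) → Set (Pt K r)) : ℚ :=
  ∑ σ : Equiv.Perm (Fin (K + 1)), ((Equiv.Perm.sign σ : ℤ) : ℚ) * Pr p (⋂ i, E i (σ i))

/-! ### Extraction of coefficients -/

/-- exponent vector of a tuple -/
noncomputable def cnt (S : Tup K r) : Fin (K + 1) →₀ ℕ :=
  Finsupp.equivFunOnFinite.symm (fun u => (univ.filter (fun t => u ∈ S t)).card)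

lemma wt_eq (x : Fin (K + 1) → ℚ) (S : Tup K r) :
    (cnt S).prod (fun u e => x u ^ e) = wt x S := by
  rw [Finsupp.prod_fintype _ _ (fun _ => pow_zero _)]
  unfold wt
  have h1 : ∀ t, ∏ u ∈ S t, x u = ∏ u, (if u ∈ S t then x u else 1) := by
    intro t
    rw [Finset.prod_ite_mem, Finset.univ_inter]
  rw [Finset.prod_congr rfl (fun t _ => h1 t), Finset.prod_comm]
  refine Finset.prod_congr rfl fun u _ => ?_
  rw [Finset.prod_ite, Finset.prod_const, Finset.prod_const_one, mul_one]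
  rfl

lemma mem_SS_iff (p : Fin (K + 1) → ℕ) (S : Tup K r) :
    S ∈ SS r p ↔ cnt S = Finsupp.equivFunOnFinite.symm p := by
  unfold SS cnt
  rw [mem_filter, Equiv.apply_eq_iff_eq]
  constructor
  · rintro ⟨_, h⟩; funext i; exact h i
  · intro h; exact ⟨mem_univ _, fun i => congrFun h i⟩

lemma extract (φ ψ : Tup K r → ℚ)
    (h : ∀ x : Fin (K + 1) → ℚ, (∀ u, 0 < x u) → ∑ S, wt x S * φ S = ∑ S, wt x S * ψ S)
    (p : Fin (K + 1) → ℕ) : ∑ S ∈ SS r p, φ S = ∑ S ∈ SS r p, ψ S := by
  classical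
  have key : (∑ S : Tup K r, MvPolynomial.monomial (cnt S) (φ S)) =
      ∑ S : Tup K r, MvPolynomial.monomial (cnt S) (ψ S) := by
    apply MvPolynomial.funext_set (fun _ => Set.Ioi (0 : ℚ)) (fun _ => Set.Ioi_infinite 0)
    intro x hx
    rw [map_sum, map_sum]
    simp only [MvPolynomial.eval_monomial, wt_eq]
    have hx' : ∀ u, 0 < x u := fun u => hx u (Set.mem_univ u)
    have := h x hx'
    rw [Finset.sum_congr rfl (fun S _ => mul_comm (φ S) (wt x S)),
      Finset.sum_congr rfl (fun S _ => mul_comm (ψ S) (wt x S))]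
    exact this
  have hc := congrArg (MvPolynomial.coeff (Finsupp.equivFunOnFinite.symm p)) key
  rw [MvPolynomial.coeff_sum, MvPolynomial.coeff_sum] at hc
  simp only [MvPolynomial.coeff_monomial] at hc
  rw [← Finset.sum_filter, ← Finset.sum_filter] at hc
  have hf : univ.filter (fun S : Tup K r => cnt S = Finsupp.equivFunOnFinite.symm p) = SS r p := by
    ext S
    rw [mem_filter, mem_SS_iff]
    simp
  rw [hf] at hc
  exact hc

/-! ### From events to determinants -/

open Classical in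
/-- indicator matrix of a matrix of events at a sample point -/
noncomputable def indM (E : Fin (K + 1) → Fin (K + 1) → Set (Pt K r)) (ω : Pt K r) :
    Matrix (Fin (K + 1)) (Fin (K + 1)) ℚ :=
  Matrix.of (fun i j => if ω ∈ E i j then 1 else 0)

lemma Pdet_eq (p : Fin (K + 1) → ℕ) (E : Fin (K + 1) → Fin (K + 1) → Set (Pt K r)) :
    Pdet p E = (∑ ω ∈ Omega r p, (indM E ω).det) / (Omega r p).card := by
  classical
  unfold Pdet Pr
  have h1 : ∀ σ : Equiv.Perm (Fin (K + 1)),
      (((Omega r p).filter (fun ω => ω ∈ ⋂ i, E i (σ i))).card : ℚ) =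
        ∑ ω ∈ Omega r p, ∏ i, indM E ω i (σ i) := by
    intro σ
    rw [Finset.card_filter]
    push_cast
    refine Finset.sum_congr rfl fun ω _ => ?_
    unfold indM
    simp only [Matrix.of_apply]
    rw [Finset.prod_boole]
    congr 1
    simp
  have h2 : ∀ ω : Pt K r, (indM E ω).det =
      ∑ σ : Equiv.Perm (Fin (K + 1)), ((Equiv.Perm.sign σ : ℤ) : ℚ) * ∏ i, indM E ω i (σ i) := by
    intro ω
    rw [← Matrix.det_transpose, Matrix.det_apply']
    rfl
  rw [Finset.sum_congr rfl (fun ω _ => h2 ω), Finset.sum_comm, Finset.sum_div]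
  refine Finset.sum_congr rfl fun σ _ => ?_
  rw [← Finset.mul_sum, ← h1 σ, mul_div_assoc]

lemma mem_cyc_prev_self (i u : Fin (K + 1)) : u ∈ cyc i (prev i) ↔ u ≠ i := by
  rw [mem_cyc]
  unfold prev
  have hne : u ≠ i ↔ (u : ℕ) ≠ i := by rw [Ne, Fin.ext_iff]
  rw [hne]
  have := u.2; have := i.2
  split_ifs with h
  · simp only [Fin.val_last]; omega
  · simp only; omega

lemma mem_cyc_prev (i j u : Fin (K + 1)) (h : prev i ≠ j) :
    u ∈ cyc (prev i) j ↔ u = i ∨ u ∈ cyc i j := by
  have hne : (prev i : ℕ) ≠ j := fun e => h (Fin.ext e)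
  rw [mem_cyc, mem_cyc, Fin.ext_iff]
  have := u.2; have := i.2; have := j.2
  unfold prev at *
  split_ifs at * with h0
  · simp only [Fin.val_last] at *; omega
  · simp only at *; omega

lemma evJ_iff (a : Fin K) (j : Fin (K + 1)) (ω : Pt K r) :
    ω ∈ evJ a (prev a.castSucc) j ↔
      (a.castSucc ∈ ω.1 (ω.2 a) ∧ cyc a.castSucc j ⊆ ω.1 (ω.2 a)) := by
  unfold evJ
  split_ifs with h
  · show ω.1 (ω.2 a) = univ ↔ _
    rw [← h]
    constructor
    · intro h1; rw [h1]; exact ⟨mem_univ _, subset_univ _⟩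
    · rintro ⟨h1, h2⟩
      rw [Finset.eq_univ_iff_forall]
      intro u
      by_cases hu : u = a.castSucc
      · rw [hu]; exact h1
      · exact h2 ((mem_cyc_prev_self _ _).mpr hu)
  · show cyc (prev a.castSucc) j ⊆ ω.1 (ω.2 a) ↔ _
    constructor
    · intro h1
      exact ⟨h1 ((mem_cyc_prev _ _ _ h).mpr (Or.inl rfl)),
        fun u hu => h1 ((mem_cyc_prev _ _ _ h).mpr (Or.inr hu))⟩
    · rintro ⟨h1, h2⟩ u hu
      rcases (mem_cyc_prev _ _ _ h).mp hu with h3 | h3
      · rw [h3]; exact h1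
      · exact h2 h3

lemma indM_MD (D : Finset (Fin K)) (S : Tup K r) (f : Fin K → Fin r) :
    (indM (MD D) (S, f)).det = (∏ i, cD D f S i) * (eM f S).det := by
  classical
  unfold eM
  rw [← rowsOf_scale]
  congr 1
  ext i j
  refine Fin.lastCases ?_ (fun i => ?_) i
  · simp [indM, MD]
  · rw [rowsOf_castSucc]
    simp only [indM, MD, Matrix.of_apply, Fin.lastCases_castSucc]
    unfold cD
    by_cases hD : i ∈ D
    · rw [if_pos hD]
      have h := evJ_iff i j (S, f)
      simp only at h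
      by_cases h1 : i.castSucc ∈ S (f i)
      · rw [if_pos (fun _ => h1), one_mul]
        by_cases h2 : cyc i.castSucc j ⊆ S (f i)
        · rw [if_pos (h.mpr ⟨h1, h2⟩), if_pos h2]
        · rw [if_neg (fun h' => h2 (h.mp h').2), if_neg h2]
      · rw [if_neg (fun h' => h1 (h.mp h').1), if_neg (fun h' => h1 (h' hD)), zero_mul]
    · rw [if_neg hD, if_pos (fun h' => absurd h' hD), one_mul]
      by_cases h2 : cyc i.castSucc j ⊆ S (f i)
      · rw [if_pos h2]
        exact if_pos h2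
      · rw [if_neg h2]
        exact if_neg h2

/-- for every surjection the sum over all tuples is the same -/
lemma sum_fixed (hK : 1 ≤ K) (hr : 1 ≤ r) (p : Fin (K + 1) → ℕ) (D : Finset (Fin K))
    (f : Fin K → Fin r) (hf : Function.Surjective f) :
    ∑ S ∈ SS r p, (indM (MD D) (S, f)).det = (((MM r p).filter
      (fun S => Fin.last K ∉ S ⟨0, hr⟩ ∧ ∀ i ∈ D, i.castSucc ∈ S ⟨0, hr⟩)).card : ℚ) := by
  classical
  simp only [indM_MD]
  rw [extract (fun S => (∏ i, cD D f S i) * (eM f S).det) (psi hr D)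
    (fun x hx => (avg hK hr x hx f hf D).trans (avg_rhs hr x hx D).symm) p]
  unfold psi MM
  rw [Finset.filter_filter, Finset.card_filter]
  push_cast
  rfl

/-- **Q1.** -/
theorem result (K r : ℕ) (hK : 1 ≤ K) (hr : 1 ≤ r) (hrK : r < K + 1) (p : Fin (K + 1) → ℕ)
    (hM : (MM r p).Nonempty) (D : Finset (Fin K)) :
    Pdet p (MD D : Fin (K + 1) → Fin (K + 1) → Set (Pt K r)) =
      ((MM r p).card : ℚ) / (SS r p).card *
        ((((MM r p).filter (fun S => Fin.last K ∉ S ⟨0, hr⟩ ∧
          ∀ i ∈ D, i.castSucc ∈ S ⟨0, hr⟩)).card : ℚ) / (MM r p).card) := by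
  classical
  set N : ℚ := (((MM r p).filter (fun S => Fin.last K ∉ S ⟨0, hr⟩ ∧
          ∀ i ∈ D, i.castSucc ∈ S ⟨0, hr⟩)).card : ℚ) with hN
  have hMc : ((MM r p).card : ℚ) ≠ 0 := by
    have := Finset.card_pos.mpr hM
    exact_mod_cast this.ne'
  have hSc : ((SS r p).card : ℚ) ≠ 0 := by
    have : 0 < (SS r p).card := Finset.card_pos.mpr (hM.mono (Finset.filter_subset _ _))
    exact_mod_cast this.ne'
  set F : Finset (Fin K → Fin r) := univ.filter (fun f : Fin K → Fin r => Function.Surjective f)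
    with hF
  have hFne : F.Nonempty := by
    refine ⟨fun i => ⟨min i (r - 1), by have := i.2; omega⟩, ?_⟩
    rw [hF, mem_filter]
    refine ⟨mem_univ _, fun t => ⟨⟨t, by have := t.2; omega⟩, ?_⟩⟩
    have := t.2
    ext; simp only; omega
  have hFc : (F.card : ℚ) ≠ 0 := by exact_mod_cast (Finset.card_pos.mpr hFne).ne'
  rw [Pdet_eq]
  have hO : Omega r p = (SS r p) ×ˢ F := rfl
  rw [hO, Finset.sum_product_right, Finset.card_product]
  have h1 : ∀ f ∈ F, ∑ S ∈ SS r p, (indM (MD D) (S, f)).det = N := by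
    intro f hf
    exact sum_fixed hK hr p D f (Finset.mem_filter.mp hf).2
  rw [Finset.sum_congr rfl h1, Finset.sum_const, nsmul_eq_mul]
  push_cast
  field_simp

end Pool.Agent.Results.MP_02f487_co.PdetIdentity
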